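import Pool.Agent.Helper68.QS.St1

/-!
Project QD (MP_d112a4_gt), part S (helper68), module INK: invariance of the inner coefficient.
-/

set_option autoImplicit false

open MeasureTheory Set Filter Topology Complex
open scoped ContDiff ComplexConjugate ENNReal

namespace Pool.Agent.Helper81.QS

open Pool.Agent.Helper68.QS Pool.Agent.Helper68.QC
open Pool.Agent.Helper61.QE (D Dx rf SU Fu FD Ab sy nuT muT syX syY Kap En Et)

private theorem den_one (z : ℂ) : den (1 : SL) z = 1 := by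
  simp [den]

private theorem mob_one (z : ℂ) : mob (1 : SL) z = z := by
  simp [mob, den_one]

private theorem SU_one : SU (1 : SL) := by
  simp [Pool.Agent.Helper61.QE.SU]

private theorem muT_zero (κ h : ℂ → ℂ) : muT κ h 0 = κ := by
  funext z
  simp [Pool.Agent.Helper61.QE.muT]

private theorem mbp_zero (p : ℂ) : mbp p 0 = p := by
  simp [mbp]

/-- INK -/
theorem pINK (hEQV : Pool.Agent.Helper68.QC.StEQV) (hSUB : Pool.Agent.Helper61.QE.StSUB)
    (hINT : Pool.Agent.Helper61.QE.StINT) (hEDD : Pool.Agent.Helper61.QE.StEDD)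
    (hCOE : Pool.Agent.Helper61.QE.StCOE) (hRFI : Pool.Agent.Helper68.QS.StRFI)
    (hEQI : Pool.Agent.Helper68.QS.StEQI) : Pool.Agent.Helper68.QS.StINK := by
  intro h H H' κ κ' a b v M A A' k δ hh hA sM sA sA' hV hHA hk hδ hκ hκo hinv hκ' hκo' hcmp
  obtain ⟨s1, -, -, s4, s5, -, s7, -, -, s10⟩ := hSUB
  set t : ℂ := conj (b / a) with htdef
  have ha : 0 < ‖a‖ := lt_of_le_of_lt (norm_nonneg b) hA.lt
  have ht : ‖t‖ < 1 := by
    rw [htdef, Complex.norm_conj, norm_div, div_lt_one ha]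
    exact hA.lt
  have hk0 : 0 ≤ k := (norm_nonneg _).trans (hκ.le 0)
  have hKap : Kap (1 : Unit →* SL) k κ :=
    { bel := hκ
      out := hκo
      inv := fun γ => by
        refine Eventually.of_forall fun z => ?_
        simp [den_one, mob_one] }
  obtain ⟨c1, c2, -⟩ := hCOE Unit (1 : Unit →* SL) h κ k (fun γ => by simpa using SU_one)
    ⟨hh, fun γ => ⟨0, fun z hz => by simp [mob_one]⟩⟩ hk0 hKap
  have hbμ := (c1 t).1
  obtain ⟨hbσ, -, hsym, -, -⟩ := c2 t
  obtain ⟨e1, -, e3, -, e5, -, -⟩ := hEDD ‖t‖ ht (syX h t) hbσ hsym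
  have sB : SU (M * A' * M⁻¹) :=
    (s7 (M * A') M⁻¹ (s7 M A' sM sA').1 (s7 M M sM sM).2.1).1
  have hmD : ∀ C : SL, SU C → ∀ z ∈ D, mob C z ∈ D := by
    intro C sC z hz
    have hz1 : ‖z‖ < 1 := by simpa using hz
    have hd := s4 C sC z hz1.le
    have h5 := s5 C sC z hd
    have hp : 0 < (1 - ‖mob C z‖ ^ 2) * ‖den C z‖ ^ 2 := by
      rw [h5]
      nlinarith [norm_nonneg z]
    have hq : 0 < 1 - ‖mob C z‖ ^ 2 := by
      by_contra hcon
      have := mul_nonpos_of_nonpos_of_nonneg (not_lt.1 hcon) (sq_nonneg ‖den C z‖)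
      linarith
    have : ‖mob C z‖ < 1 := by
      nlinarith [norm_nonneg (mob C z)]
    simpa using this
  have hcomm : ∀ z ∈ D, nq (syX h t) (mob A z) = mob (M * A' * M⁻¹) (nq (syX h t) z) := by
    intro z hz
    rw [hV _ (hmD A sA z hz), hHA z hz, hV z hz]
    have hy : H z ∈ D := hA.m hz
    have hy1 : ‖H z‖ ≤ 1 := by
      have : ‖H z‖ < 1 := by simpa using hy
      exact this.le
    have hdM := s4 M sM (H z) hy1
    obtain ⟨i1, i2⟩ := s10 M (H z) hdM
    have hdM' : den M⁻¹ (mob M (H z)) ≠ 0 := by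
      intro h0
      rw [h0, zero_mul] at i2
      exact zero_ne_one i2
    rw [(s1 (M * A') M⁻¹ (mob M (H z)) hdM').2, i1,
      (s1 M A' (H z) (s4 A' sA' (H z) hy1)).2]
  have hAB : Intw A (M * A' * M⁻¹) (nq (syX h t)) :=
    hRFI (nq (syX h t)) A (M * A' * M⁻¹) e5 e1 e3 sA sB hcomm
  obtain ⟨R, hR⟩ := hEQV (max k ‖t‖) (max_lt hk ht) (muT κ h t) hbμ A hinv
  have hR' : Intw A R (fun z => nq κ' (nq (syX h t) z)) := by
    have he : ((nq (muT κ h t) : ℂ ≃ₜ ℂ) : ℂ → ℂ) = fun z => nq κ' (nq (syX h t) z) := by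
      funext z
      have := hcmp z
      rw [mbp_zero, muT_zero] at this
      exact this
    rw [← he]
    exact hR
  exact hEQI δ hδ κ' hκ' _ R (hINT.2.2 A (M * A' * M⁻¹) R (nq (syX h t)) (nq κ') hAB hR')

end Pool.Agent.Helper81.QS
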